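import Pool.Agent.Lib.MP_f10b34_al.Growth

set_option autoImplicit false

namespace Pool.Agent.Results.MP_f10b34_al.Degrees

open Pool.Agent.Lib.MP_f10b34_al

/-- The set of growth degrees of boundary Schreier graphs of finitely generated contracting
self-similar groups is `{0} ∪ [1, ∞)`. -/
theorem result :
    {d : ℝ | ∃ (X : Type) (_ : Finite X) (S : Finset (Equiv.Perm (List X))) (ξ : ℕ → X),
      SelfSimilar (Subgroup.closure (S : Set (Equiv.Perm (List X)))) ∧
      Contracting (Subgroup.closure (S : Set (Equiv.Perm (List X)))) ∧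
      degree S ξ = (d : EReal)} = {0} ∪ Set.Ici 1 := by
  ext d
  constructor
  · rintro ⟨X, _, S, ξ, -, -, h⟩
    by_cases hf : {η | (schreier S).Reachable ξ η}.Finite
    · left
      rw [degree_eq_zero_of_finite hf] at h
      exact (EReal.coe_eq_coe_iff.1 h).symm
    · right
      have := one_le_degree_of_infinite hf
      rw [h] at this
      exact EReal.coe_le_coe_iff.1 this
  · rintro (rfl | h)
    · refine ⟨Fin 2, inferInstance, ∅, fun _ => 0, selfSimilar_of_hp (by simp),
        contracting_of_hp (by simp), degree_eq_zero_of_finite ?_⟩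
      refine (Set.finite_singleton fun _ => 0).subset ?_
      rintro η ⟨p⟩
      cases p with
      | nil => rfl
      | cons h _ => simp [schreier] at h
    · obtain ⟨n, S, ξ, -, h1, h2, -, -, h3⟩ := realize h
      exact ⟨Fin n, inferInstance, S, ξ, h1, h2, h3⟩

end Pool.Agent.Results.MP_f10b34_al.Degrees
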