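import Pool.Agent.Lib.MP_f10b34_al.Growth

set_option autoImplicit false

namespace Pool.Agent.Results.MP_f10b34_al.Transitive

open Pool.Agent.Lib.MP_f10b34_al

/-- The set of growth degrees of boundary Schreier graphs of finitely generated contracting,
level-transitive, self-replicating self-similar groups over alphabets with at least two letters
is `[1, ∞)`. -/
theorem result :
    {d : ℝ | ∃ (X : Type) (_ : Finite X) (_ : Nontrivial X) (S : Finset (Equiv.Perm (List X)))
      (ξ : ℕ → X),
      SelfSimilar (Subgroup.closure (S : Set (Equiv.Perm (List X)))) ∧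
      Contracting (Subgroup.closure (S : Set (Equiv.Perm (List X)))) ∧
      LevelTransitive (Subgroup.closure (S : Set (Equiv.Perm (List X)))) ∧
      SelfReplicating (Subgroup.closure (S : Set (Equiv.Perm (List X)))) ∧
      degree S ξ = (d : EReal)} = Set.Ici 1 := by
  ext d
  constructor
  · rintro ⟨X, _, _, S, ξ, h1, -, h2, -, h⟩
    have := one_le_degree_of_infinite (infinite_of_transitive h1 h2 ξ)
    rw [h] at this
    exact EReal.coe_le_coe_iff.1 this
  · intro h
    obtain ⟨n, S, ξ, hn, h'⟩ := realize h
    exact ⟨Fin n, inferInstance, Fin.nontrivial_iff_two_le.2 hn, S, ξ, h'⟩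

end Pool.Agent.Results.MP_f10b34_al.Transitive
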